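import Pool.Agent.H92.SG.Stmts

set_option autoImplicit false

namespace Pool.Agent.H1.SG

open Pool.Agent.H92.SG

/-- The braid on the strands `p, …, p+b` which moves each strand `x < p+b` to `x+1`. -/
def cyc (p : ℕ) : ℕ → B
  | 0 => 1
  | b + 1 => cyc p b * σ (p + b)

theorem cyc_mem (p b n : ℕ) (h : p + b < n ∨ b = 0) : cyc p b ∈ Bn n := by
  induction b with
  | zero => exact Subgroup.one_mem _
  | succ b ih =>
    rcases h with h | h
    · exact Subgroup.mul_mem _ (ih (Or.inl (by omega))) (σ_mem_Bn (by omega))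
    · omega

theorem comm_Bn {n i : ℕ} (h : n ≤ i) {x : B} (hx : x ∈ Bn n) : σ i * x = x * σ i := by
  have h1 : Commute (σ i) x := by
    refine Bn_induction (n := n) (p := fun y => Commute (σ i) y) (Commute.one_right _) ?_ ?_ ?_ hx
    · intro j hj
      exact (σ_comm (by omega)).symm
    · intro y _ z _ hy hz
      exact hy.mul_right hz
    · intro y _ hy
      exact hy.inv_right
  exact h1

theorem cyc_comm (p b : ℕ) {x : B} (hx : x ∈ Bn p) : cyc p b * x = x * cyc p b := by
  induction b with
  | zero => simp [cyc]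
  | succ b ih =>
    have h1 : Commute (cyc p b) x := ih
    have h2 : Commute (σ (p + b)) x := comm_Bn (by omega) hx
    exact h1.mul_left h2

theorem cyc_low (p b i : ℕ) (h : i < p) : perm (cyc p b) i = i := by
  induction b with
  | zero => simp [cyc]
  | succ b ih =>
    rw [cyc, map_mul, Equiv.Perm.mul_apply, perm_σ, Equiv.swap_apply_of_ne_of_ne (by omega) (by omega),
      ih]

theorem cyc_high (p b i : ℕ) (h : p + b < i) : perm (cyc p b) i = i := by
  induction b with
  | zero => simp [cyc]
  | succ b ih =>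
    rw [cyc, map_mul, Equiv.Perm.mul_apply, perm_σ, Equiv.swap_apply_of_ne_of_ne (by omega) (by omega),
      ih (by omega)]

theorem cyc_mid (p b j : ℕ) (h : j < b) : perm (cyc p b) (p + j) = p + j + 1 := by
  induction b with
  | zero => omega
  | succ b ih =>
    rw [cyc, map_mul, Equiv.Perm.mul_apply, perm_σ]
    rcases Nat.lt_or_ge j b with h1 | h1
    · rw [Equiv.swap_apply_of_ne_of_ne (by omega) (by omega), ih h1]
    · have e : j = b := by omega
      subst e
      rw [Equiv.swap_apply_left, cyc_high _ _ _ (by omega)]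

theorem TAU_thm : TauStmt := by
  intro n b m
  induction m with
  | zero =>
    exact ⟨1, Subgroup.one_mem _, fun x _ => by simp, fun i _ => by simp, fun j _ => by simp⟩
  | succ m ih =>
    obtain ⟨τ, h1, h2, h3, h4⟩ := ih
    refine ⟨cyc (n + m) b * τ, ?_, ?_, ?_, ?_⟩
    · refine Subgroup.mul_mem _ (cyc_mem _ _ _ (by omega)) (Bn_mono (by omega) h1)
    · intro x hx
      have c1 : Commute (cyc (n + m) b) x := cyc_comm _ _ (Bn_mono (by omega) hx)
      have c2 : Commute τ x := h2 x hx
      exact c1.mul_left c2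
    · intro i hi
      rw [map_mul, Equiv.Perm.mul_apply, h3 i hi, cyc_low _ _ _ (by omega)]
    · intro j hj
      rw [map_mul, Equiv.Perm.mul_apply, h4 j hj, cyc_mid _ _ _ hj]
      omega

end Pool.Agent.H1.SG
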